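import Pool.Agent.H1.CycC

namespace Pool.Agent.Results.MP_fa04ef_co.Counter

open Pool.Agent.H1

/-- `π` contains the pattern `σ`: there are indices `i 0 < i 1 < i 2` whose values under `π`
are in the same relative order as `σ 0, σ 1, σ 2`. -/
def Contains {n : ℕ} (π : Equiv.Perm (Fin n)) (σ : Fin 3 → Fin 3) : Prop :=
  ∃ i : Fin 3 → Fin n, StrictMono i ∧ ∀ a b, π (i a) < π (i b) ↔ σ a < σ b

/-- `a S σ n`: the number of permutations of an `n`-element chain that avoid `σ` and all of whose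
cycles have length in `S` (the cycle through `x` has length the minimal period of `x`). -/
noncomputable def a (S : Set ℕ) (σ : Fin 3 → Fin 3) (n : ℕ) : ℕ :=
  Nat.card {π : Equiv.Perm (Fin n) //
    ¬ Contains π σ ∧ ∀ x, Function.minimalPeriod π x ∈ S}

def ext {n : ℕ} (π : Equiv.Perm (Fin n)) (x : ℕ) : ℕ := if h : x < n then π ⟨x, h⟩ else x

lemma ext_val {n : ℕ} (π : Equiv.Perm (Fin n)) (x : Fin n) : ext π x = π x := by simp [ext]

lemma ext_inj {n : ℕ} : Function.Injective (ext (n := n)) := by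
  intro π ρ e
  ext x
  rw [← ext_val, ← ext_val, e]

lemma per {n : ℕ} (π : Equiv.Perm (Fin n)) (x : Fin n) :
    Function.minimalPeriod π x ∈ ({1, 2, 3} : Set ℕ) ↔ π (π x) = x ∨ π (π (π x)) = x := by
  constructor
  · intro h
    have p := Function.isPeriodicPt_minimalPeriod π x
    rcases h with h | h | h <;> rw [h] at p
    · left
      have : π x = x := p
      rw [this, this]
    · exact Or.inl p
    · exact Or.inr p
  · rintro (h | h)
    · have : Function.minimalPeriod π x ∣ 2 :=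
        Function.IsPeriodicPt.minimalPeriod_dvd (n := 2) h
      rcases (Nat.dvd_prime Nat.prime_two).1 this with e | e <;> simp [e]
    · have : Function.minimalPeriod π x ∣ 3 :=
        Function.IsPeriodicPt.minimalPeriod_dvd (n := 3) h
      rcases (Nat.dvd_prime Nat.prime_three).1 this with e | e <;> simp [e]

lemma enc (S : Set ℕ) (σ : Fin 3 → Fin 3) (n : ℕ) : (a S σ n : ℕ∞) =
    {π : Equiv.Perm (Fin n) | ¬ Contains π σ ∧ ∀ x, Function.minimalPeriod π x ∈ S}.encard :=
  Set.Finite.cast_ncard_eq (Set.toFinite _)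

lemma upper (n : ℕ) : (a {1, 2, 3} ![1, 2, 0] n : ℕ∞) ≤ {f | CycA.V (Finset.range n) f}.encard := by
  rw [enc]
  refine Set.encard_le_encard_of_injOn (f := ext) ?_ ext_inj.injOn
  rintro π ⟨h1, h2⟩
  refine ⟨fun x hx => dif_neg (by simpa using hx), fun x hx => ?_, fun x => ?_, ?_⟩
  · rw [Finset.mem_range] at hx ⊢
    rw [show x = (⟨x, hx⟩ : Fin n) from rfl, ext_val]; exact Fin.is_lt _
  · by_cases hx : x < n
    · rw [show x = (⟨x, hx⟩ : Fin n) from rfl, ext_val, ext_val, ext_val]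
      exact ((per π _).1 (h2 ⟨x, hx⟩)).imp (congrArg _) (congrArg _)
    · have : ext π x = x := dif_neg hx
      left; rw [this, this]
  · intro x hx y hy z hz xy yz e1 e2
    rw [Finset.mem_range] at hx hy hz
    rw [show x = (⟨x, hx⟩ : Fin n) from rfl, ext_val] at e1 e2
    rw [show z = (⟨z, hz⟩ : Fin n) from rfl, ext_val] at e1
    rw [show y = (⟨y, hy⟩ : Fin n) from rfl, ext_val] at e2
    refine h1 ⟨![⟨x, hx⟩, ⟨y, hy⟩, ⟨z, hz⟩], ?_, ?_⟩
    · rw [Fin.strictMono_iff_lt_succ]
      intro i; fin_cases i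
      · exact xy
      · exact yz
    · intro i j
      have e1' : π ⟨z, hz⟩ < π ⟨x, hx⟩ := e1
      have e2' : π ⟨x, hx⟩ < π ⟨y, hy⟩ := e2
      have e3 := e1'.trans e2'
      fin_cases i <;> fin_cases j <;> simp [e1', e2', e3, e1'.le, e2'.le, e3.le]

lemma lower (n : ℕ) : {f | CycB.Good n f}.encard ≤ (a {1, 2, 3} ![2, 1, 0] n : ℕ∞) := by
  rw [enc, ← ext_inj.encard_image]
  refine Set.encard_le_encard fun f (h : CycB.Good n f) => ?_
  let g : Fin n → Fin n := fun x => ⟨f x, h.mem x x.2⟩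
  have gi : Function.Injective g := by
    intro x y e
    have e' : f x = f y := congrArg Fin.val e
    have := h.cyc x
    have := h.cyc y
    apply Fin.ext
    grind
  let π : Equiv.Perm (Fin n) := Equiv.ofBijective g (Finite.injective_iff_bijective.1 gi)
  have pv : ∀ x, (π x : ℕ) = f x := fun _ => rfl
  refine ⟨π, ⟨?_, fun x => (per π x).2 ?_⟩, ?_⟩
  · rintro ⟨i, hi, e⟩
    have a1 : (i 0 : ℕ) < i 1 := hi (by decide : (0 : Fin 3) < 1)
    have a2 : (i 1 : ℕ) < i 2 := hi (by decide : (1 : Fin 3) < 2)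
    have b1 : f (i 1) < f (i 0) := (e 1 0).2 (by decide)
    have b2 : f (i 2) < f (i 1) := (e 2 1).2 (by decide)
    have := h.e _ _ a1 (i 1).2
    have := h.e _ _ a2 (i 2).2
    have := h.e _ _ (a1.trans a2) (i 2).2
    have := h.d _ _ a1 (i 1).2
    have := h.d _ _ a2 (i 2).2
    have := h.d _ _ (a1.trans a2) (i 2).2
    omega
  · exact (h.cyc x).imp (fun e => Fin.ext e) (fun e => Fin.ext e)
  · funext x
    by_cases hx : x < n
    · exact dif_pos hx
    · exact (dif_neg hx).trans (h.out x (by omega)).symm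

/-- The last inequality of Q1 fails at `n = 38`: patterns are written on `0, 1, 2`, so
`![1, 2, 0]` is `231` and `![2, 1, 0]` is `321`. -/
theorem result : a {1, 2, 3} ![1, 2, 0] 38 < a {1, 2, 3} ![2, 1, 0] 38 := by
  have h1 : a {1, 2, 3} ![1, 2, 0] 38 ≤ 111917065496883 :=
    Nat.cast_le.1 ((upper 38).trans CycC.up)
  have h2 : 112879056545923 ≤ a {1, 2, 3} ![2, 1, 0] 38 :=
    Nat.cast_le.1 (CycC.lo.trans (lower 38))
  omega

end Pool.Agent.Results.MP_fa04ef_co.Counter
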